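import Pool.Agent.MP_ccce09_ag.Mg.Sig

set_option autoImplicit false

open Filter Topology Pool.Agent.MP_ccce09_ag

namespace Pool.Agent.Results.MP_ccce09_ag.Counter

/-- In every prime characteristic there is an F-finite normal local domain of dimension three with
F-signature `1/4` all of whose pairs with `K + Δ` Q-Cartier of index prime to `p` have
F-signature at most `1/6`. -/
theorem result (p : ℕ) [Fact p.Prime] :
    ∃ (R : Type) (_ : CommRing R) (_ : IsDomain R) (_ : IsLocalRing R) (_ : IsNoetherianRing R)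
      (_ : IsIntegrallyClosed R) (_ : CharP R p) (_ : Algebra (ZMod p) R),
      Algebra.EssFiniteType (ZMod p) R ∧
      Function.Surjective (algebraMap (ZMod p) (IsLocalRing.ResidueField R)) ∧
      Module.Finite R (frobPush R p 1 R) ∧ ringKrullDim R = 3 ∧
      (∃ K, IsCanonicalDivisor R (ZMod p) 3 K) ∧
      Tendsto (fsigSeq R p 3) atTop (𝓝 (1 / 4)) ∧
      ∀ K, IsCanonicalDivisor R (ZMod p) 3 K →
        ∀ Δ : PrimeDiv R →₀ ℚ, (∀ P, 0 ≤ Δ P) → QCartierPrimeTo R p K Δ →
          liminf (pairSeq R p Δ 3) atTop ≤ 1 / 6 :=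
  ⟨RR p, inferInstance, inferInstance, inferInstance, inferInstance, inferInstance, inferInstance,
    inferInstance, essFT p, residue_surj, ffinite 1, dim_RR p, exists_canonical p, fsig,
    fun _ hK _ hΔ hQ => pair_bound hK hΔ hQ⟩

end Pool.Agent.Results.MP_ccce09_ag.Counter
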