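import Pool.Agent.MP_ccce09_ag.Mg.H83_Main

set_option autoImplicit false

open Filter Topology Pool.Agent.MP_ccce09_ag

namespace Pool.Agent.Results.MP_ccce09_ag.NonLocal

/-- In every prime characteristic there is a non-local F-finite normal domain `R` of finite type
over `F_p` and a prime `P` with `s(R_P) = 1/4` such that `s(R_P, Δ_P) ≤ 1/6` for every effective
`Δ` on `Spec R` with `K + Δ` Q-Cartier of index prime to `p` near `P`. -/
theorem result (p : ℕ) [Fact p.Prime] :
    ∃ (R : Type) (_ : CommRing R) (_ : IsDomain R) (_ : IsNoetherianRing R)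
      (_ : IsIntegrallyClosed R) (_ : CharP R p) (_ : Algebra (ZMod p) R)
      (P : Ideal R) (_ : P.IsPrime) (_ : CharP (Localization.AtPrime P) p),
      Algebra.FiniteType (ZMod p) R ∧ ¬ IsLocalRing R ∧
      Module.Finite R (frobPush R p 1 R) ∧ ringKrullDim R = 3 ∧ P.height = 3 ∧
      (∃ K, IsCanonicalDivisor R (ZMod p) 3 K) ∧
      Tendsto (fsigSeq (Localization.AtPrime P) p 3) atTop (𝓝 (1 / 4)) ∧
      ∀ K, IsCanonicalDivisor R (ZMod p) 3 K →
        ∀ Δ : PrimeDiv R →₀ ℚ, (∀ Q, 0 ≤ Δ Q) → QCartierNear R P p K Δ →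
          liminf (pairSeq (Localization.AtPrime P) p (restrictDiv R P Δ) 3) atTop ≤ 1 / 6 :=
  ⟨R0 p, inferInstance, inferInstance, inferInstance, inferInstance, inferInstance, inferInstance,
    m0 p, inferInstance, H83.charP_loc p, inferInstance, H83.not_local p, H83.ffinite0 p 1,
    H83.dim0 p, height_m0 p, H83.exists_canonical0 p, H83.fsig0 p,
    fun _ hK _ hΔ hQ => H83.pair_bound0 p hK hΔ hQ⟩

end Pool.Agent.Results.MP_ccce09_ag.NonLocal
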